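import Mathlib

/-!
# Project BP (MP_32607b_nt, full answer YES)

For odd `e ≥ r ≥ 3` odd: `n² ∣ (re+1)!/(r!)^e · ∑_{h<n} C(h,r)^e`.
-/

namespace Pool.Agent.X119.BP

open Finset

/-- the sum `∑_{h<n} C(h,r)^e` -/
def S (r e n : ℕ) : ℕ := ∑ h ∈ range n, (Nat.choose h r) ^ e

/-- `(re+1)!/(r!)^e` -/
def C (r e : ℕ) : ℕ := (r * e + 1).factorial / (r.factorial) ^ e

/-- VAL. Proof. Legendre: `v_p(C) = ∑_k ((re+1)/p^k - e*(r/p^k))`, `v_p(i) = ∑_k [p^k ∣ i]`. Let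
`c_k = r % p^k`, so the k-th term is `(c_k e+1)/p^k` (for `p^k > r` it is `(re+1)/p^k`, at least the
number of `i, J` divisible by `p^k`). For `p^k ≤ r`: term `≥ 2` if `c_k ≥ 2` (as `e ≥ r ≥ p^k`).
`c_k = 1`: `r = b p^k + 1`; `b ≥ 2` gives `e+1 ≥ 2p^k`; `b = 1` only for `p = 2` (r odd),
`r = 2^k+1`, the term is `≥ 1`, and the deficit 1 is compensated by the term `k = 1`, which is
`(e+1)/2 ≥ 2 + (2^(k-1) - 1)`. `c_k = 0` for `k ≤ a := v_p(r)` (p odd then): deficit at most `2a`.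
If `r ≠ p^a` the term `k = a+1` is `≥ 2a+2` (if `r > p^(a+1)`: `e/p ≥ p^a + p^(a-1) ≥ 2a+2`;
otherwise `r = b p^a`, `3 ≤ b < p`, term `≥ b e/p ≥ b² p^(a-1) ≥ 9*5^(a-1) ≥ 2a+2`).
If `r = p^a`: term `k = a+1` is `e/p`, and `e/p ≥ 2a+2` unless `a = 1, e < 4p` or
`(p,a) = (3,2), e < 18` or `(p,a) = (5,2), e < 30`. -/
def S_VAL : Prop := ∀ p r e : ℕ, p.Prime → Odd r → Odd e → 3 ≤ r → r ≤ e →
  ¬ (r = p ∧ e < 4 * p) → ¬ (p = 3 ∧ r = 9 ∧ e < 18) → ¬ (p = 5 ∧ r = 25 ∧ e < 30) →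
  ∀ i J : ℕ, 1 ≤ i → i < J → J ≤ r * e + 1 →
    padicValNat p i + padicValNat p J ≤ padicValNat p (C r e)

/-- F1. `p` odd prime, `e` odd: `p ∣ S p e (p n)` and `p² ∣ S p e (p² u)`. Proof. For `h = p y + c`,
`0 ≤ c < p`: `(p-1)! C(h,p) = y ∏_{i<p, i≠c} (p y + c - i) ≡ y (p-1)! mod p`, so `C(h,p) ≡ y mod p`
and `S p e (p n) ≡ p ∑ y^e ≡ 0 mod p`. For the second: modulo `p²` the value `C(h,p)^e` for
`h = p y + c` is `y^e w_c(p y)`, `w_c(z) = w_c(0) + w_c'(0) z`, the sum `W` over `c` of `w_c` is an even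
function of `z` (symmetry `c → p-1-c`, `z → -z`; `C(p-1-h,p) = -C(h,p)`), so
`S p e (p² u) ≡ W_0 ∑_{y<pu} y^e mod p²`, `W_0 ≡ ∑_{c<p} 1 ≡ 0 mod p` and `∑_{y<pu} y^e ≡ 0 mod p` (e odd,
`y → -y`). -/
def S_F1 : Prop := ∀ p e : ℕ, p.Prime → Odd p → Odd e → 3 ≤ e →
  (∀ n, p ∣ S p e (p * n)) ∧ ∀ u, p ^ 2 ∣ S p e (p ^ 2 * u)

/-- F2. `p` odd prime, `e` odd, `p ≤ e < 2p`: `p³ ∣ S p e (p²)`. Proof. As for F1, modulo `p³`: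
`S p e (p²) = ∑_{y<p} y^e W(p y)`, `W` even with `p`-integral coefficients, so
`≡ W_0 ∑_{y<p} y^e + p² W_2 ∑_{y<p} y^(e+2)`, the last sum is `0 mod p` (odd exponent).
`W_0 = ∑_{c<p} ((-1)^c / C(p-1,c))^e`, `(-1)^c C(p-1,c) ≡ 1 - p H_c mod p²`,
`∑_{c<p} H_c ≡ 1 mod p`, so `W_0 ≡ p (1+e) mod p²`. And `2 ∑_{y<p} y^e ≡ e p ∑_{y<p} y^(e-1) mod p²`, the last
sum is `0 mod p` unless `p-1 ∣ e-1`. So the product is `0 mod p³` if `p ∣ e`, or `p ∣ e+1`, or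
`p-1 ∤ e-1`; for odd `p ≤ e < 2p`, `p-1 ∣ e-1` means `e = p` or `e = 2p-1`. -/
def S_F2 : Prop := ∀ p e : ℕ, p.Prime → Odd p → Odd e → p ≤ e → e < 2 * p →
  p ^ 3 ∣ S p e (p ^ 2)

/-- FIN. Finite checks (use descFactorial to evaluate binomials in `decide +kernel`).
Only `n` with `2 v_p(n) > v_p(C)` need work: `(3,9)`: `v_3(C) = 4,4,5,6,6` for `e = 9,11,13,15,17`;
`(5,25)`: `v_5(C) = 6`, only `n = 625`, `5² ∣ S 25 e 625`. -/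
def S_FIN : Prop :=
  (∀ e n : ℕ, Odd e → 9 ≤ e → e < 18 → 1 ≤ n → n ≤ 9 * e →
    3 ^ (2 * padicValNat 3 n) ∣ C 9 e * S 9 e n) ∧
  (∀ e n : ℕ, Odd e → 25 ≤ e → e < 30 → 1 ≤ n → n ≤ 25 * e →
    5 ^ (2 * padicValNat 5 n) ∣ C 25 e * S 25 e n)

/-- EXP (helper119 does it). -/
def S_EXP : Prop := ∀ r e : ℕ, Odd r → Odd e → 3 ≤ r → 3 ≤ e →
  ∃ c : ℕ → ℕ → ℤ, ∀ n : ℕ, 1 ≤ n → (S r e n : ℚ) = (n : ℚ) ^ 2 *
    ∑ J ∈ Icc 2 (r * e + 1), ∑ i ∈ Icc 1 (J - 1),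
      (c J i : ℚ) * ((n - 1).choose (i - 1) : ℚ) / ((i : ℚ) * (J : ℚ))

/-- final statement -/
def S_MAIN : Prop := ∀ r e : ℕ, Odd r → Odd e → 3 ≤ r → r ≤ e → ∀ n : ℕ, 1 ≤ n →
  n ^ 2 ∣ C r e * S r e n

end Pool.Agent.X119.BP
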