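import Mathlib
import Pool.Agent.X119.BP.Stm

namespace Pool.Agent.X119.BP

open Finset Polynomial fwdDiff

noncomputable def B (r : ℕ) : ℚ[X] := descPochhammer ℚ r * Polynomial.C (1 / (r.factorial : ℚ))

lemma B_eval_nat (r h : ℕ) : (B r).eval (h : ℚ) = (h.choose r : ℚ) := by
  unfold B
  rw [eval_mul, eval_C, descPochhammer_eval_eq_descFactorial, Nat.descFactorial_eq_factorial_mul_choose]
  have : (r.factorial : ℚ) ≠ 0 := by exact_mod_cast Nat.factorial_ne_zero r
  push_cast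
  field_simp

lemma B_symm (r : ℕ) (hr : Odd r) (x : ℚ) : (B r).eval ((r : ℚ) - 1 - x) = - (B r).eval x := by
  unfold B
  simp only [eval_mul, eval_C]
  rw [descPochhammer_eval_eq_prod_range, descPochhammer_eval_eq_prod_range]
  rw [← Finset.prod_range_reflect]
  have : ∏ j ∈ range r, ((r : ℚ) - 1 - x - ((r - 1 - j : ℕ) : ℚ)) = ∏ j ∈ range r, (-1 * (x - (j : ℚ))) := by
    apply Finset.prod_congr rfl
    intro j hj
    have hj' := Finset.mem_range.mp hj
    rw [Nat.cast_sub (by omega), Nat.cast_sub (by omega)]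
    push_cast
    ring
  rw [this, Finset.prod_mul_distrib, Finset.prod_const, Finset.card_range, hr.neg_one_pow]
  ring

lemma B_natDegree (r : ℕ) : (B r).natDegree ≤ r := by
  unfold B
  refine (natDegree_mul_C_le _ _).trans ?_
  rw [descPochhammer_natDegree]

lemma B_zero (r j : ℕ) (hj : j < r) : (B r).eval (j : ℚ) = 0 := by
  rw [B_eval_nat, Nat.choose_eq_zero_of_lt hj]; simp

noncomputable def F (r e : ℕ) : ℚ[X] := (B r) ^ e

lemma F_natDegree (r e : ℕ) : (F r e).natDegree ≤ r * e := by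
  unfold F
  refine (natDegree_pow_le).trans ?_
  rw [mul_comm]
  exact Nat.mul_le_mul_right _ (B_natDegree r)

lemma F_eval_nat (r e h : ℕ) : (F r e).eval (h : ℚ) = ((h.choose r) ^ e : ℕ) := by
  unfold F; rw [eval_pow, B_eval_nat]; push_cast; rfl

/-- Newton coefficients -/
lemma newton (r e : ℕ) : ∃ a : ℕ → ℤ, ∀ h : ℕ,
    (((h.choose r) ^ e : ℕ) : ℤ) = ∑ k ∈ range (r * e + 1), a k * (h.choose k : ℤ) := by
  set f : ℕ → ℤ := fun h => (((h.choose r) ^ e : ℕ) : ℤ) with hf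
  refine ⟨fun k => ((fwdDiff 1)^[k] f) 0, fun h => ?_⟩
  have h0 : ∀ k, r * e < k → ((fwdDiff 1)^[k] f) 0 = 0 := by
    intro k hk
    have h1 := Polynomial.fwdDiff_iter_eq_zero_of_degree_lt (P := F r e) (n := k)
      (lt_of_le_of_lt (F_natDegree r e) hk)
    have h2 := congrFun h1 0
    have h3 : (((fwdDiff 1)^[k] f) 0 : ℚ) = ((fwdDiff 1)^[k] (F r e).eval) 0 := by
      rw [fwdDiff_iter_eq_sum_shift, fwdDiff_iter_eq_sum_shift]
      push_cast
      apply Finset.sum_congr rfl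
      intro i _
      have : (F r e).eval (0 + i • (1 : ℚ)) = ((i.choose r) ^ e : ℕ) := by
        rw [← F_eval_nat]; simp
      rw [this, hf]
      simp
    rw [h2] at h3
    simpa using h3
  have h1 := shift_eq_sum_fwdDiff_iter (1 : ℕ) f h 0
  have h2 : f (0 + h • 1) = f h := by simp
  rw [h2] at h1
  show f h = _
  rw [h1]
  have e1 : ∑ k ∈ range (h + 1), h.choose k • ((fwdDiff 1)^[k] f) 0 =
      ∑ k ∈ range (max (h+1) (r * e + 1)), ((fwdDiff 1)^[k] f) 0 * (h.choose k : ℤ) := by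
    rw [← Finset.sum_subset (Finset.range_subset_range.mpr (le_max_left (h+1) (r*e+1)))]
    · apply Finset.sum_congr rfl
      intro k _
      rw [nsmul_eq_mul, mul_comm]
    · intro k _ hk
      rw [Nat.choose_eq_zero_of_lt (by simpa using hk)]; simp
  rw [e1]
  rw [← Finset.sum_subset (Finset.range_subset_range.mpr (le_max_right (h+1) (r*e+1)))]
  intro k _ hk
  rw [h0 k (by simpa using hk)]; simp

noncomputable def G (D : ℕ) (a : ℕ → ℤ) : ℚ[X] :=
  ∑ k ∈ range D, Polynomial.C (a k : ℚ) * B (k + 1)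

lemma sum_range_choose' (k n : ℕ) : ∑ h ∈ range n, (h.choose k : ℤ) = (n.choose (k + 1) : ℤ) := by
  induction n with
  | zero => simp
  | succ n ih =>
    rw [Finset.sum_range_succ, ih, Nat.choose_succ_succ]
    push_cast; ring

lemma G_eval_nat (r e : ℕ) (a : ℕ → ℤ)
    (ha : ∀ h : ℕ, (((h.choose r) ^ e : ℕ) : ℤ) = ∑ k ∈ range (r * e + 1), a k * (h.choose k : ℤ))
    (n : ℕ) : (G (r * e + 1) a).eval (n : ℚ) = (S r e n : ℚ) := by
  unfold G S
  rw [eval_finsetSum]
  have h1 : ((∑ h ∈ range n, (Nat.choose h r) ^ e : ℕ) : ℤ) =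
      ∑ k ∈ range (r * e + 1), a k * (n.choose (k + 1) : ℤ) := by
    rw [Nat.cast_sum, Finset.sum_congr rfl (fun h _ => ha h), Finset.sum_comm]
    apply Finset.sum_congr rfl
    intro k _
    rw [← Finset.mul_sum, sum_range_choose']
  have h2 : ((∑ h ∈ range n, (Nat.choose h r) ^ e : ℕ) : ℚ) =
      ((∑ k ∈ range (r * e + 1), a k * (n.choose (k + 1) : ℤ) : ℤ) : ℚ) := by
    rw [← h1]; push_cast; rfl
  rw [h2]
  push_cast
  apply Finset.sum_congr rfl
  intro k _
  rw [eval_mul, eval_C, B_eval_nat]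

lemma S_succ (r e n : ℕ) : S r e (n + 1) = S r e n + (n.choose r) ^ e := by
  unfold S; rw [Finset.sum_range_succ]

lemma poly_ext_nat {P Q : ℚ[X]} (h : ∀ n : ℕ, P.eval (n : ℚ) = Q.eval (n : ℚ)) : P = Q := by
  apply Polynomial.eq_of_infinite_eval_eq
  apply Set.Infinite.mono (s := Set.range (fun n : ℕ => (n : ℚ)))
  · rintro _ ⟨n, rfl⟩; exact h n
  · exact Set.infinite_range_of_injective Nat.cast_injective

lemma G_step (r e : ℕ) (a : ℕ → ℤ)
    (ha : ∀ h : ℕ, (((h.choose r) ^ e : ℕ) : ℤ) = ∑ k ∈ range (r * e + 1), a k * (h.choose k : ℤ)) :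
    (G (r * e + 1) a).comp (X + 1) = G (r * e + 1) a + F r e := by
  apply poly_ext_nat
  intro n
  rw [eval_comp, eval_add, eval_add, eval_X, eval_one, F_eval_nat]
  have : ((n : ℚ) + 1) = ((n + 1 : ℕ) : ℚ) := by push_cast; rfl
  rw [this, G_eval_nat r e a ha, G_eval_nat r e a ha, S_succ]
  push_cast; rfl

lemma S_small (r e n : ℕ) (he : e ≠ 0) (hn : n ≤ r) : S r e n = 0 := by
  unfold S
  apply Finset.sum_eq_zero
  intro h hh
  rw [Nat.choose_eq_zero_of_lt (lt_of_lt_of_le (Finset.mem_range.mp hh) hn), zero_pow he]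

lemma F_symm (r e : ℕ) (hr : Odd r) (he : Odd e) (x : ℚ) :
    (F r e).eval ((r : ℚ) - 1 - x) = - (F r e).eval x := by
  unfold F
  rw [eval_pow, eval_pow, B_symm r hr, he.neg_pow]

lemma G_symm (r e : ℕ) (hr : Odd r) (he : Odd e) (a : ℕ → ℤ)
    (ha : ∀ h : ℕ, (((h.choose r) ^ e : ℕ) : ℤ) = ∑ k ∈ range (r * e + 1), a k * (h.choose k : ℤ)) :
    (G (r * e + 1) a).comp (Polynomial.C (r : ℚ) - X) = G (r * e + 1) a := by
  have hstep : ∀ x : ℚ, (G (r * e + 1) a).eval (x + 1) = (G (r * e + 1) a).eval x + (F r e).eval x := by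
    intro x
    have := congrArg (fun P : ℚ[X] => P.eval x) (G_step r e a ha)
    simpa [eval_comp] using this
  have he0 : e ≠ 0 := by rintro rfl; simp at he
  apply poly_ext_nat
  intro n
  rw [eval_comp, eval_sub, eval_C, eval_X]
  induction n with
  | zero =>
    have h1 := G_eval_nat r e a ha r
    have h2 := G_eval_nat r e a ha 0
    rw [S_small r e r he0 le_rfl] at h1
    rw [S_small r e 0 he0 (Nat.zero_le _)] at h2
    rw [Nat.cast_zero, sub_zero, h1]
    rw [Nat.cast_zero] at h2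
    rw [h2, Nat.cast_zero]
  | succ n ih =>
    have h1 := hstep ((r : ℚ) - ((n + 1 : ℕ) : ℚ))
    have e1 : (r : ℚ) - ((n + 1 : ℕ) : ℚ) + 1 = (r : ℚ) - (n : ℚ) := by push_cast; ring
    have e2 : (r : ℚ) - ((n + 1 : ℕ) : ℚ) = (r : ℚ) - 1 - (n : ℚ) := by push_cast; ring
    rw [e1, ih] at h1
    have h2 := F_symm r e hr he (n : ℚ)
    rw [← e2] at h2
    have h3 := hstep (n : ℚ)
    have e3 : (n : ℚ) + 1 = ((n + 1 : ℕ) : ℚ) := by push_cast; rfl
    rw [e3] at h3
    rw [h3]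
    linarith

lemma G_deriv (r e : ℕ) (hr : Odd r) (he : Odd e) (he3 : 3 ≤ e) (a : ℕ → ℤ)
    (ha : ∀ h : ℕ, (((h.choose r) ^ e : ℕ) : ℤ) = ∑ k ∈ range (r * e + 1), a k * (h.choose k : ℤ)) :
    (derivative (G (r * e + 1) a)).eval 0 = 0 := by
  have h1 := congrArg (fun P : ℚ[X] => (derivative P).eval 0) (G_symm r e hr he a ha)
  simp only [derivative_comp, eval_mul, eval_comp, derivative_sub, derivative_C, derivative_X,
    eval_sub, eval_C, eval_X, eval_zero, eval_one, sub_zero, zero_sub] at h1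
  have h2 := fun x : ℚ => congrArg (fun P : ℚ[X] => (derivative P).eval x) (G_step r e a ha)
  simp only [derivative_comp, eval_mul, eval_comp, derivative_add, derivative_X, derivative_one,
    eval_add, eval_X, eval_one, add_zero, one_mul] at h2
  have h3 : ∀ j < r, (derivative (F r e)).eval (j : ℚ) = 0 := by
    intro j hj
    unfold F
    rw [derivative_pow, eval_mul, eval_mul, eval_pow, B_zero r j hj, zero_pow (by omega)]
    simp
  have h4 : ∀ j ≤ r, (derivative (G (r * e + 1) a)).eval (j : ℚ) =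
      (derivative (G (r * e + 1) a)).eval 0 := by
    intro j
    induction j with
    | zero => intro _; simp
    | succ j ih =>
      intro hj
      have := h2 (j : ℚ)
      rw [h3 j (by omega), ih (by omega), add_zero] at this
      push_cast
      exact this
  have h5 := h4 r le_rfl
  rw [h5] at h1
  have h6 : eval (0 : ℚ) (-1 : ℚ[X]) = -1 := by simp
  rw [h6] at h1
  linarith

lemma B_deriv_zero (k : ℕ) : (derivative (B (k + 1))).eval 0 = (-1) ^ k / ((k : ℚ) + 1) := by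
  unfold B
  rw [descPochhammer_succ_left, derivative_mul, derivative_mul, derivative_C, derivative_X]
  simp only [eval_add, eval_mul, eval_comp, eval_X, eval_sub, eval_one, zero_mul, mul_zero,
    add_zero, eval_C, one_mul, eval_zero]
  rw [descPochhammer_eval_eq_prod_range]
  have : ∏ j ∈ range k, ((0 : ℚ) - 1 - (j : ℚ)) = (-1) ^ k * (k.factorial : ℚ) := by
    induction k with
    | zero => simp
    | succ k ih =>
      rw [Finset.prod_range_succ, ih, Nat.factorial_succ]; push_cast; ring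
  rw [this, Nat.factorial_succ]
  have h1 : (k.factorial : ℚ) ≠ 0 := by exact_mod_cast Nat.factorial_ne_zero k
  have h2 : ((k : ℚ) + 1) ≠ 0 := by positivity
  push_cast
  field_simp

lemma sum_zero (r e : ℕ) (hr : Odd r) (he : Odd e) (he3 : 3 ≤ e) (a : ℕ → ℤ)
    (ha : ∀ h : ℕ, (((h.choose r) ^ e : ℕ) : ℤ) = ∑ k ∈ range (r * e + 1), a k * (h.choose k : ℤ)) :
    ∑ k ∈ range (r * e + 1), (a k : ℚ) * ((-1) ^ k / ((k : ℚ) + 1)) = 0 := by
  have h := G_deriv r e hr he he3 a ha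
  unfold G at h
  rw [derivative_sum, eval_finsetSum] at h
  rw [← h]
  apply Finset.sum_congr rfl
  intro k _
  rw [derivative_C_mul, eval_C_mul, B_deriv_zero]

lemma alt_sum (n k : ℕ) (hn : 1 ≤ n) :
    (((n - 1).choose k : ℕ) : ℚ) - (-1) ^ k =
      ∑ i ∈ Icc 1 k, (-1) ^ (k - i) * ((n.choose i : ℕ) : ℚ) := by
  induction k with
  | zero => simp
  | succ k ih =>
    rw [Finset.sum_Icc_succ_top (by omega)]
    have h1 : ∑ i ∈ Icc 1 k, (-1 : ℚ) ^ (k + 1 - i) * ((n.choose i : ℕ) : ℚ) =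
        - ∑ i ∈ Icc 1 k, (-1) ^ (k - i) * ((n.choose i : ℕ) : ℚ) := by
      rw [← Finset.sum_neg_distrib]
      apply Finset.sum_congr rfl
      intro i hi
      have := Finset.mem_Icc.mp hi
      rw [show k + 1 - i = (k - i) + 1 by omega, pow_succ]
      ring
    rw [h1, ← ih]
    obtain ⟨m, rfl⟩ : ∃ m, n = m + 1 := ⟨n - 1, by omega⟩
    rw [Nat.choose_succ_succ]
    simp only [Nat.add_sub_cancel]
    push_cast
    rw [Nat.sub_self, pow_zero, pow_succ, Nat.succ_eq_add_one]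
    ring

lemma choose_div (n i : ℕ) (hn : 1 ≤ n) (hi : 1 ≤ i) :
    ((n.choose i : ℕ) : ℚ) = (n : ℚ) / (i : ℚ) * (((n - 1).choose (i - 1) : ℕ) : ℚ) := by
  obtain ⟨m, rfl⟩ : ∃ m, n = m + 1 := ⟨n - 1, by omega⟩
  obtain ⟨j, rfl⟩ : ∃ j, i = j + 1 := ⟨i - 1, by omega⟩
  have h := Nat.add_one_mul_choose_eq m j
  have h' : ((m : ℚ) + 1) * ((m.choose j : ℕ) : ℚ) = (((m + 1).choose (j + 1) : ℕ) : ℚ) * ((j : ℚ) + 1) := by
    exact_mod_cast h
  simp only [Nat.add_sub_cancel]
  have h2 : ((j : ℚ) + 1) ≠ 0 := by positivity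
  push_cast
  field_simp
  linarith

theorem t_EXP : S_EXP := by
  intro r e hr he hr3 he3
  obtain ⟨a, ha⟩ := newton r e
  refine ⟨fun J i => a (J - 1) * (-1) ^ (J - 1 - i), fun n hn => ?_⟩
  have h0 := sum_zero r e hr he he3 a ha
  have hn0 : (n : ℚ) ≠ 0 := by positivity
  have h1 : (S r e n : ℚ) = ∑ k ∈ range (r * e + 1), (a k : ℚ) * (((n.choose (k + 1) : ℕ)) : ℚ) := by
    rw [← G_eval_nat r e a ha n]
    unfold G
    rw [eval_finsetSum]
    apply Finset.sum_congr rfl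
    intro k _
    rw [eval_mul, eval_C, B_eval_nat]
  have h2 : (S r e n : ℚ) = (n : ℚ) * ∑ k ∈ range (r * e + 1),
      (a k : ℚ) / ((k : ℚ) + 1) * ((((n - 1).choose k : ℕ) : ℚ) - (-1) ^ k) := by
    have e1 : ∑ k ∈ range (r * e + 1), (a k : ℚ) / ((k : ℚ) + 1) * ((((n - 1).choose k : ℕ) : ℚ) - (-1) ^ k)
        = ∑ k ∈ range (r * e + 1), (a k : ℚ) / ((k : ℚ) + 1) * (((n - 1).choose k : ℕ) : ℚ) := by
      rw [← sub_eq_zero, ← Finset.sum_sub_distrib]
      rw [← neg_eq_zero, ← Finset.sum_neg_distrib, ← h0]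
      apply Finset.sum_congr rfl
      intro k _
      ring
    rw [e1, h1, Finset.mul_sum]
    apply Finset.sum_congr rfl
    intro k _
    rw [choose_div n (k + 1) hn (by omega)]
    simp only [Nat.add_sub_cancel]
    push_cast
    ring
  rw [h2, Finset.range_eq_Ico, Finset.sum_eq_sum_Ico_succ_bot (by omega)]
  have e3 : (a 0 : ℚ) / (((0 : ℕ) : ℚ) + 1) * ((((n - 1).choose 0 : ℕ) : ℚ) - (-1) ^ 0) = 0 := by simp
  rw [e3, zero_add, pow_two, mul_assoc]
  congr 1
  have e4 : Icc 2 (r * e + 1) = (Ico (0 + 1) (r * e + 1)).image (· + 1) := by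
    ext x
    simp only [mem_Icc, mem_image, mem_Ico]
    constructor
    · intro h; exact ⟨x - 1, by omega, by omega⟩
    · rintro ⟨y, hy, rfl⟩; omega
  rw [e4, Finset.sum_image (by intro x _ y _ h; simpa using h), Finset.mul_sum]
  apply Finset.sum_congr rfl
  intro k hk
  rw [alt_sum n k hn, Finset.mul_sum, Finset.mul_sum]
  simp only [Nat.add_sub_cancel]
  apply Finset.sum_congr rfl
  intro i hi
  have hi' := Finset.mem_Icc.mp hi
  rw [choose_div n i hn hi'.1]
  have h3 : ((k : ℚ) + 1) ≠ 0 := by positivity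
  have h4 : (i : ℚ) ≠ 0 := by
    have : 0 < i := by omega
    positivity
  push_cast
  field_simp

end Pool.Agent.X119.BP
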