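import Mathlib
import Pool.Agent.X119.BP.Exp

namespace Pool.Agent.X119.BP

open Finset

lemma fac_dvd (r e : ℕ) : (r.factorial) ^ e ∣ (r * e + 1).factorial := by
  have h := Nat.prod_factorial_dvd_factorial_sum (range e) (fun _ => r)
  rw [Finset.prod_const, Finset.card_range, Finset.sum_const, Finset.card_range, smul_eq_mul] at h
  rw [mul_comm r e]
  exact h.trans (Nat.factorial_dvd_factorial (Nat.le_succ _))

lemma C_mul (r e : ℕ) : C r e * (r.factorial) ^ e = (r * e + 1).factorial :=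
  Nat.div_mul_cancel (fac_dvd r e)

lemma C_pos (r e : ℕ) : 0 < C r e := by
  rcases Nat.eq_zero_or_pos (C r e) with h | h
  · have := C_mul r e
    rw [h, zero_mul] at this
    exact absurd this.symm (Nat.factorial_ne_zero _)
  · exact h

lemma norm_nat (p : ℕ) [Fact p.Prime] {m : ℕ} (hm : m ≠ 0) :
    padicNorm p (m : ℚ) = (p : ℚ) ^ (-(padicValNat p m : ℤ)) := by
  rw [padicNorm.eq_zpow_of_nonzero (by exact_mod_cast hm)]
  simp

lemma dvd_of_norm (p : ℕ) [Fact p.Prime] (X k : ℕ) (h : padicNorm p (X : ℚ) ≤ (p : ℚ) ^ (-(k : ℤ))) :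
    p ^ k ∣ X := by
  have := (padicNorm.dvd_iff_norm_le (p := p) (n := k) (z := (X : ℤ))).mpr (by push_cast; exact_mod_cast h)
  exact_mod_cast this

lemma norm_of_dvd (p : ℕ) [Fact p.Prime] (X k : ℕ) (h : p ^ k ∣ X) :
    padicNorm p (X : ℚ) ≤ (p : ℚ) ^ (-(k : ℤ)) := by
  have := (padicNorm.dvd_iff_norm_le (p := p) (n := k) (z := (X : ℤ))).mp (by exact_mod_cast h)
  exact_mod_cast this

lemma norm_int (p : ℕ) [Fact p.Prime] (z : ℤ) : padicNorm p (z : ℚ) ≤ 1 := padicNorm.of_int z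

lemma norm_natc (p : ℕ) [Fact p.Prime] (z : ℕ) : padicNorm p (z : ℚ) ≤ 1 := padicNorm.of_nat z

/-- from integrality of the quotient to divisibility -/
lemma dvd_of_quot (p : ℕ) [Fact p.Prime] (X n : ℕ) (hn : n ≠ 0) (Q : ℚ) (h : (X : ℚ) = (n : ℚ) ^ 2 * Q)
    (hQ : padicNorm p Q ≤ 1) : p ^ (2 * padicValNat p n) ∣ X := by
  apply dvd_of_norm
  rw [h, padicNorm.mul, pow_two, padicNorm.mul, norm_nat p hn]
  have hp : (0 : ℚ) < p := by exact_mod_cast (Fact.out : p.Prime).pos
  have h0 : (0 : ℚ) ≤ (p : ℚ) ^ (-(padicValNat p n : ℤ)) * (p : ℚ) ^ (-(padicValNat p n : ℤ)) := by positivity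
  calc _ ≤ (p : ℚ) ^ (-(padicValNat p n : ℤ)) * (p : ℚ) ^ (-(padicValNat p n : ℤ)) * 1 :=
        mul_le_mul_of_nonneg_left hQ h0
    _ = _ := by
        rw [mul_one, ← zpow_add₀ hp.ne']
        congr 1
        push_cast; ring

lemma quot_of_dvd (p : ℕ) [Fact p.Prime] (X n : ℕ) (hn : n ≠ 0) (Q : ℚ) (h : (X : ℚ) = (n : ℚ) ^ 2 * Q)
    (hX : p ^ (2 * padicValNat p n) ∣ X) : padicNorm p Q ≤ 1 := by
  have h1 := norm_of_dvd p X _ hX
  rw [h, padicNorm.mul, pow_two, padicNorm.mul, norm_nat p hn] at h1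
  have hp : (0 : ℚ) < p := by exact_mod_cast (Fact.out : p.Prime).pos
  have h0 : (0 : ℚ) < (p : ℚ) ^ (-(padicValNat p n : ℤ)) * (p : ℚ) ^ (-(padicValNat p n : ℤ)) := by positivity
  have h2 : (p : ℚ) ^ (-((2 * padicValNat p n : ℕ) : ℤ)) =
      (p : ℚ) ^ (-(padicValNat p n : ℤ)) * (p : ℚ) ^ (-(padicValNat p n : ℤ)) := by
    rw [← zpow_add₀ hp.ne']
    congr 1
    push_cast; ring
  rw [h2] at h1
  exact (mul_le_iff_le_one_right h0).mp h1

/-- primes where the general bound holds -/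
lemma local_general (p : ℕ) [hp : Fact p.Prime] (r e : ℕ) (hr : Odd r) (he : Odd e) (hr3 : 3 ≤ r) (he3 : 3 ≤ e)
    (hv : ∀ i J : ℕ, 1 ≤ i → i < J → J ≤ r * e + 1 →
      padicValNat p i + padicValNat p J ≤ padicValNat p (C r e)) (n : ℕ) (hn : 1 ≤ n) :
    p ^ (2 * padicValNat p n) ∣ C r e * S r e n := by
  obtain ⟨c, hc⟩ := t_EXP r e hr he hr3 he3
  apply dvd_of_quot p _ n (by omega) (∑ J ∈ Icc 2 (r * e + 1), ∑ i ∈ Icc 1 (J - 1),
      (c J i : ℚ) * ((n - 1).choose (i - 1) : ℚ) * ((C r e : ℚ) / ((i : ℚ) * (J : ℚ))))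
  · push_cast
    rw [hc n hn, Finset.mul_sum, Finset.mul_sum, Finset.mul_sum]
    apply Finset.sum_congr rfl
    intro J _
    rw [Finset.mul_sum, Finset.mul_sum, Finset.mul_sum]
    apply Finset.sum_congr rfl
    intro i _
    ring
  · apply padicNorm.sum_le' _ zero_le_one
    intro J hJ
    apply padicNorm.sum_le' _ zero_le_one
    intro i hi
    have hJ' := mem_Icc.mp hJ
    have hi' := mem_Icc.mp hi
    rw [padicNorm.mul, padicNorm.mul]
    have h1 : padicNorm p ((C r e : ℚ) / ((i : ℚ) * (J : ℚ))) ≤ 1 := by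
      rw [padicNorm.div, padicNorm.mul, norm_nat p (C_pos r e).ne', norm_nat p (by omega : i ≠ 0),
        norm_nat p (by omega : J ≠ 0)]
      have hp1 : (1 : ℚ) ≤ p := by exact_mod_cast hp.out.one_lt.le
      have hp0 : (p : ℚ) ≠ 0 := by positivity
      rw [← zpow_add₀ hp0, ← zpow_sub₀ hp0]
      apply zpow_le_one_of_nonpos₀ hp1
      have := hv i J hi'.1 (by omega) hJ'.2
      omega
    have h2 := norm_int p (c J i)
    have h3 := norm_natc p ((n - 1).choose (i - 1))
    have g1 := padicNorm.nonneg (p := p) (c J i : ℚ)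
    have g2 := padicNorm.nonneg (p := p) (((n - 1).choose (i - 1) : ℕ) : ℚ)
    have g3 := padicNorm.nonneg (p := p) ((C r e : ℚ) / ((i : ℚ) * (J : ℚ)))
    exact mul_le_one₀ (mul_le_one₀ h2 g2 h3) g3 h1

/-- interpolation -/
lemma local_interp (p : ℕ) [hp : Fact p.Prime] (r e : ℕ) (hr : Odd r) (he : Odd e) (hr3 : 3 ≤ r) (he3 : 3 ≤ e)
    (hv : ∀ n : ℕ, 1 ≤ n → n ≤ r * e → p ^ (2 * padicValNat p n) ∣ C r e * S r e n) (n : ℕ) (hn : 1 ≤ n) :
    p ^ (2 * padicValNat p n) ∣ C r e * S r e n := by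
  obtain ⟨c, hc⟩ := t_EXP r e hr he hr3 he3
  set q : ℕ → ℚ := fun i => ∑ J ∈ Icc (i + 1) (r * e + 1), (C r e : ℚ) * (c J i : ℚ) / ((i : ℚ) * (J : ℚ)) with hq
  have key : ∀ n : ℕ, 1 ≤ n → ((C r e * S r e n : ℕ) : ℚ) = (n : ℚ) ^ 2 *
      ∑ i ∈ Icc 1 (r * e), q i * ((n - 1).choose (i - 1) : ℚ) := by
    intro n hn
    push_cast
    rw [hc n hn, mul_left_comm]
    congr 1
    rw [Finset.mul_sum]
    have e1 : ∀ J ∈ Icc 2 (r * e + 1), (C r e : ℚ) * ∑ i ∈ Icc 1 (J - 1),
        (c J i : ℚ) * ((n - 1).choose (i - 1) : ℚ) / ((i : ℚ) * (J : ℚ)) =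
        ∑ i ∈ Icc 1 (J - 1), (C r e : ℚ) * (c J i : ℚ) / ((i : ℚ) * (J : ℚ)) * ((n - 1).choose (i - 1) : ℚ) := by
      intro J _
      rw [Finset.mul_sum]
      apply Finset.sum_congr rfl
      intro i _
      ring
    rw [Finset.sum_congr rfl e1]
    simp only [hq, Finset.sum_mul]
    apply Finset.sum_comm'
    intro J i
    simp only [mem_Icc]
    omega
  have hQ : ∀ n : ℕ, 1 ≤ n → n ≤ r * e →
      padicNorm p (∑ i ∈ Icc 1 (r * e), q i * ((n - 1).choose (i - 1) : ℚ)) ≤ 1 := by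
    intro n hn hn2
    exact quot_of_dvd p _ n (by omega) _ (key n hn) (hv n hn hn2)
  have hqi : ∀ i : ℕ, 1 ≤ i → i ≤ r * e → padicNorm p (q i) ≤ 1 := by
    intro i
    induction i using Nat.strong_induction_on with
    | _ i ih =>
      intro hi hi2
      have h1 := hQ i hi hi2
      have h2 : ∑ j ∈ Icc 1 (r * e), q j * ((i - 1).choose (j - 1) : ℚ) =
          q i + ∑ j ∈ Ico 1 i, q j * ((i - 1).choose (j - 1) : ℚ) := by
        have e1 : ∑ j ∈ Icc 1 (r * e), q j * ((i - 1).choose (j - 1) : ℚ) =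
            ∑ j ∈ Icc 1 i, q j * ((i - 1).choose (j - 1) : ℚ) := by
          symm
          apply Finset.sum_subset
          · intro j; simp only [mem_Icc]; omega
          · intro j hj hj2
            simp only [mem_Icc] at hj hj2
            rw [Nat.choose_eq_zero_of_lt (by omega)]; simp
        rw [e1, ← Finset.Ico_insert_right hi, Finset.sum_insert (by simp)]
        rw [Nat.choose_self]; push_cast; ring
      have h3 : q i = ∑ j ∈ Icc 1 (r * e), q j * ((i - 1).choose (j - 1) : ℚ) -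
          ∑ j ∈ Ico 1 i, q j * ((i - 1).choose (j - 1) : ℚ) := by rw [h2]; ring
      rw [h3]
      have h4 : padicNorm p (∑ j ∈ Ico 1 i, q j * ((i - 1).choose (j - 1) : ℚ)) ≤ 1 := by
        apply padicNorm.sum_le' _ zero_le_one
        intro j hj
        have hj' := mem_Ico.mp hj
        rw [padicNorm.mul]
        exact mul_le_one₀ (ih j hj'.2 hj'.1 (by omega)) (padicNorm.nonneg _) (norm_natc p _)
      exact (padicNorm.sub (p := p)).trans (max_le h1 h4)
  apply dvd_of_quot p _ n (by omega) _ (key n hn)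
  apply padicNorm.sum_le' _ zero_le_one
  intro i hi
  have hi' := mem_Icc.mp hi
  rw [padicNorm.mul]
  exact mul_le_one₀ (hqi i hi'.1 hi'.2) (padicNorm.nonneg _) (norm_natc p _)

/-- the family r = p -/
lemma local_family (hF1 : S_F1) (hF2 : S_F2) (p e : ℕ) [hp : Fact p.Prime] (hpo : Odd p) (he : Odd e)
    (hpe : p ≤ e) (he4 : e < 4 * p) (n : ℕ) (hn : 1 ≤ n) (hn2 : n ≤ p * e) :
    p ^ (2 * padicValNat p n) ∣ C p e * S p e n := by
  have hp3 : 3 ≤ p := by
    have := hp.out.two_le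
    rcases hpo with ⟨k, hk⟩
    omega
  have hval : padicValNat p (C p e) = padicValNat p e.factorial := by
    have h1 := congrArg (padicValNat p) (C_mul p e)
    rw [padicValNat.mul (C_pos p e).ne' (pow_ne_zero _ (Nat.factorial_ne_zero _)),
      padicValNat.pow] at h1
    have h2 : padicValNat p p.factorial = 1 := by
      have := padicValNat_factorial_mul (p := p) 1
      simpa using this
    have h3 : padicValNat p (p * e + 1).factorial = padicValNat p e.factorial + e := by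
      rw [← padicValNat_factorial_mul]
      exact padicValNat_factorial_mul_add (p := p) (n := 1) e hp.out.one_lt
    rw [h2, h3] at h1
    omega
  obtain ⟨hA, hB⟩ := hF1 p e hp.out hpo he (by omega)
  have hC1 : p ∣ C p e := by
    apply dvd_of_one_le_padicValNat
    rw [hval]
    have : p ∣ e.factorial := (hp.out.dvd_factorial).mpr hpe
    exact one_le_padicValNat_of_dvd (Nat.factorial_ne_zero _) this
  have hC2 : 2 * p ≤ e → p ^ 2 ∣ C p e := by
    intro h
    apply (padicValNat_dvd_iff_le (C_pos p e).ne').mpr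
    rw [hval]
    have h1 : (p * 2).factorial ∣ e.factorial := Nat.factorial_dvd_factorial (by omega)
    have h2 := padicValNat_factorial_mul (p := p) 2
    have h3 : padicValNat p (p * 2).factorial ≤ padicValNat p e.factorial :=
      padicValNat_dvd_iff_le (Nat.factorial_ne_zero _) |>.mp (pow_padicValNat_dvd.trans h1)
    omega
  have hv1 : p ^ padicValNat p n ∣ n := pow_padicValNat_dvd
  by_cases v0 : padicValNat p n = 0
  · rw [v0]; simp
  by_cases v1 : padicValNat p n = 1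
  · rw [v1] at hv1 ⊢
    obtain ⟨m, hm⟩ := hv1
    rw [pow_one] at hm
    have h1 := hA m
    rw [← hm] at h1
    rw [show p ^ (2 * 1) = p * p by ring]
    exact mul_dvd_mul hC1 h1
  have v2 : 2 ≤ padicValNat p n := by omega
  have hd2 : p ^ 2 ∣ n := (pow_dvd_pow p v2).trans hv1
  obtain ⟨u, hu⟩ := hd2
  have hu4 : u < 4 := by
    by_contra hcon
    have : p ^ 2 * 4 ≤ p * e := by
      calc p ^ 2 * 4 ≤ p ^ 2 * u := Nat.mul_le_mul_left _ (by omega)
        _ ≤ p * e := by rw [← hu]; exact hn2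
    nlinarith
  have hu0 : u ≠ 0 := by rintro rfl; omega
  have hvn : padicValNat p n = 2 + padicValNat p u := by
    rw [hu, padicValNat.mul (by positivity) hu0, padicValNat.prime_pow]
  by_cases h2p : 2 * p ≤ e
  · have hS := hB u
    rw [← hu] at hS
    by_cases hvu : padicValNat p u = 0
    · rw [hvn, hvu, show 2 * (2 + 0) = 2 + 2 by rfl, pow_add]
      exact mul_dvd_mul (hC2 h2p) hS
    · -- p = 3, u = 3
      have hpu : p ∣ u := by
        by_contra hcon
        exact hvu (padicValNat.eq_zero_of_not_dvd hcon)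
      have : p ≤ u := Nat.le_of_dvd (by omega) hpu
      have hp' : p = 3 := by omega
      have hu' : u = 3 := by omega
      subst hp'
      subst hu'
      have h33 : padicValNat 3 3 = 1 := padicValNat_self
      rw [hvn, h33, show 2 * (2 + 1) = 4 + 2 by rfl, pow_add]
      refine mul_dvd_mul ?_ hS
      have he' : e = 9 ∨ e = 11 := by
        rcases he with ⟨k, hk⟩
        omega
      rcases he' with rfl | rfl
      · unfold C; decide +kernel
      · unfold C; decide +kernel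
  · have hu1 : u = 1 := by
      by_contra hcon
      have h2 : 2 ≤ u := by omega
      have : p ^ 2 * 2 ≤ p * e := by
        calc p ^ 2 * 2 ≤ p ^ 2 * u := Nat.mul_le_mul_left _ (by omega)
          _ ≤ p * e := by rw [← hu]; exact hn2
      nlinarith
    subst hu1
    have hS := hF2 p e hp.out hpo he hpe (by omega)
    rw [mul_one] at hu
    rw [hvn, hu, show 2 * (2 + padicValNat p 1) = 1 + 3 by simp, pow_add, pow_one]
    exact mul_dvd_mul hC1 hS

theorem main (hVAL : S_VAL) (hF1 : S_F1) (hF2 : S_F2) (hFIN : S_FIN) : S_MAIN := by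
  intro r e hr he hr3 hre n hn
  rw [Nat.dvd_iff_prime_pow_dvd_dvd]
  intro p k hp hk
  have : Fact p.Prime := ⟨hp⟩
  have h1 : k ≤ 2 * padicValNat p n := by
    have := (padicValNat_dvd_iff_le (p := p) (a := n ^ 2) (n := k) (by positivity)).mp hk
    rwa [padicValNat.pow] at this
  refine (pow_dvd_pow p h1).trans ?_
  by_cases hA : r = p ∧ e < 4 * p
  · obtain ⟨rfl, h4⟩ := hA
    exact local_interp r r e hr he hr3 (by omega)
      (fun m hm hm2 => local_family hF1 hF2 r e hr he hre h4 m hm hm2) n hn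
  by_cases hB : p = 3 ∧ r = 9 ∧ e < 18
  · obtain ⟨rfl, rfl, h4⟩ := hB
    exact local_interp 3 9 e hr he hr3 (by omega) (fun m hm hm2 => hFIN.1 e m he hre h4 hm hm2) n hn
  by_cases hC : p = 5 ∧ r = 25 ∧ e < 30
  · obtain ⟨rfl, rfl, h4⟩ := hC
    exact local_interp 5 25 e hr he hr3 (by omega) (fun m hm hm2 => hFIN.2 e m he hre h4 hm hm2) n hn
  exact local_general p r e hr he hr3 (by omega) (hVAL p r e hp hr he hr3 hre hA hB hC) n hn

end Pool.Agent.X119.BP
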